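import Pool.Agent.K3h47.HY.Stm

/-!
# Elements of order `p` in the critical case
-/

set_option autoImplicit false

namespace Pool.Agent.K3h57.HY

open Pool.Agent.K3h47.HY

theorem dvd_of_not_ful {M p e : ℕ} (hp : p.Prime) (he : e ∣ M)
    (h : ¬ p ^ M.factorization p ∣ e) : e ∣ M / p := by
  obtain ⟨t, ht⟩ := he
  by_cases hpt : p ∣ t
  · obtain ⟨t', rfl⟩ := hpt
    refine ⟨t', ?_⟩
    apply Nat.div_eq_of_eq_mul_right hp.pos
    rw [ht]
    ring
  · exfalso
    apply h
    have h1 : p ^ M.factorization p ∣ e * t := by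
      rw [← ht]
      exact Nat.ordProj_dvd M p
    have h2 : Nat.Coprime (p ^ M.factorization p) t :=
      Nat.Coprime.pow_left _ ((Nat.Prime.coprime_iff_not_dvd hp).mpr hpt)
    exact h2.dvd_of_dvd_mul_right h1

theorem t_FZ : S_FZ := by
  intro n r M e Λ hC hn p hp hpM hcard i hi j hj hij
  have hM := hC.M0
  have hv : M.factorization p ≠ 0 := by
    have := (hp.dvd_iff_one_le_factorization hM).mp hpM
    omega
  have hmemF : ∀ k, k ∈ Ful M e p ↔ p ^ M.factorization p ∣ e k := by
    intro k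
    unfold Ful
    rw [Finset.mem_filter]
    exact ⟨fun h => h.2, fun h => ⟨Finset.mem_univ _, h⟩⟩
  have he0 : ∀ k, e k ≠ 0 := fun k => by
    have := hC.two k
    omega
  have hpe : ∀ k, k ∈ Ful M e p → p ∣ e k := fun k hk =>
    (dvd_pow_self p hv).trans ((hmemF k).mp hk)
  obtain ⟨lam, hlam, hl1, hl0⟩ := hC.sur ((Ful M e p).erase j)
    (by rw [Finset.card_erase_of_mem hj, hcard]; omega) i (Finset.mem_erase.mpr ⟨hij, hi⟩)
  obtain ⟨m, hm⟩ := hpM
  have hm0 : 0 < m := by
    rcases Nat.eq_zero_or_pos m with h | h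
    · rw [h, mul_zero] at hm
      exact absurd hm hM
    · exact h
  have hdiv : M / p = m := by rw [hm, Nat.mul_div_cancel_left _ hp.pos]
  obtain ⟨a, ha⟩ := hpe i hi
  obtain ⟨b, hb⟩ := hpe j hj
  obtain ⟨u, hu⟩ := hC.dvd i
  obtain ⟨t, ht⟩ := hC.dvd j
  have hau : m = a * u := by
    apply Nat.eq_of_mul_eq_mul_left hp.pos
    rw [← hm, hu, ha]
    ring
  have hbt : m = b * t := by
    apply Nat.eq_of_mul_eq_mul_left hp.pos
    rw [← hm, ht, hb]
    ring
  have hpu : ¬ p ∣ u := by
    intro h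
    have h1 : p ^ (M.factorization p + 1) ∣ M := by
      have h2 : p ^ (M.factorization p + 1) ∣ e i * u := by
        rw [pow_succ]
        exact mul_dvd_mul ((hmemF i).mp hi) h
      rw [← hu] at h2
      exact h2
    exact Nat.pow_succ_factorization_not_dvd hM hp h1
  have hMi : M / e i = u := by
    apply Nat.div_eq_of_eq_mul_right (Nat.pos_of_ne_zero (he0 i)) hu
  have hMj : M / e j = t := by
    apply Nat.div_eq_of_eq_mul_right (Nat.pos_of_ne_zero (he0 j)) ht
  have : ∀ k, NeZero (e k) := fun k => ⟨he0 k⟩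
  -- the element `m • lam`
  have hmu : m • lam ∈ Λ := AddSubgroup.nsmul_mem _ hlam m
  have hk0 : ∀ k, k ≠ i ∧ k ≠ j → (m • lam) k = 0 := by
    rintro k ⟨hki, hkj⟩
    rw [Pi.smul_apply]
    by_cases hk : k ∈ Ful M e p
    · rw [hl0 k (Finset.mem_erase.mpr ⟨hkj, hk⟩) hki, smul_zero]
    · have h1 : e k ∣ m := by
        rw [← hdiv]
        exact dvd_of_not_ful hp (hC.dvd k) fun h => hk ((hmemF k).mpr h)
      rw [nsmul_eq_mul, (ZMod.natCast_eq_zero_iff m (e k)).mpr h1, zero_mul]
  have hi0 : (m • lam) i = ((a * u : ℕ) : ZMod (e i)) := by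
    rw [Pi.smul_apply, hl1, nsmul_eq_mul, mul_one, hau]
  have hj0 : (m • lam) j = ((b * (t * (lam j).val) : ℕ) : ZMod (e j)) := by
    rw [Pi.smul_apply, nsmul_eq_mul, hbt]
    push_cast
    rw [ZMod.natCast_zmod_val]
    ring
  set w : ℕ := t * (lam j).val with hw
  have hdeg := hC.deg _ hmu
  rw [Fintype.sum_eq_add i j hij (fun k hk => by rw [hk0 k hk, ZMod.val_zero, zero_mul]), hi0, hj0,
    ZMod.val_natCast, ZMod.val_natCast, hMi, hMj] at hdeg
  have h1 : a * u % e i = a * (u % p) := by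
    rw [ha, mul_comm p a, Nat.mul_mod_mul_left]
  have h2 : b * w % e j = b * (w % p) := by
    rw [hb, mul_comm p b, Nat.mul_mod_mul_left]
  have h3 : a * (u % p) * u + b * (w % p) * t = m * (u % p + w % p) := by
    have : m * (u % p + w % p) = m * (u % p) + m * (w % p) := by ring
    rw [this]
    nth_rewrite 1 [hau]
    rw [hbt]
    ring
  rw [h1, h2, h3, hm, mul_comm p m] at hdeg
  have h4 : p ∣ u % p + w % p := Nat.dvd_of_mul_dvd_mul_left hm0 hdeg
  have h5 : p ∣ u + w := by
    rw [Nat.dvd_iff_mod_eq_zero, Nat.add_mod]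
    exact Nat.mod_eq_zero_of_dvd h4
  obtain ⟨u', hu'⟩ := Nat.exists_mul_mod_eq_one_of_coprime
    ((Nat.Prime.coprime_iff_not_dvd hp).mpr hpu).symm hp.one_lt
  obtain ⟨c, hc⟩ : ∃ c, u * u' = p * c + 1 := ⟨u * u' / p, by
    have := Nat.div_add_mod (u * u') p
    rw [hu'.2] at this
    exact this.symm⟩
  have h6 : p ∣ u' * w + 1 := by
    have h7 : p ∣ p * c + (u' * w + 1) := by
      have h8 : p * c + (u' * w + 1) = u' * (u + w) := by
        have : u' * (u + w) = u * u' + u' * w := by ring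
        rw [this, hc]
        ring
      rw [h8]
      exact h5.mul_left u'
    exact (Nat.dvd_add_right (dvd_mul_right p c)).mp h7
  have hfin : u' • (m • lam) =
      (Pi.single i ((e i / p : ℕ) : ZMod (e i)) - Pi.single j ((e j / p : ℕ) : ZMod (e j)) :
        ∀ i, ZMod (e i)) := by
    have hai : e i / p = a := by rw [ha, Nat.mul_div_cancel_left _ hp.pos]
    have hbj : e j / p = b := by rw [hb, Nat.mul_div_cancel_left _ hp.pos]
    funext k
    rw [Pi.smul_apply, Pi.sub_apply]
    by_cases hki : k = i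
    · subst hki
      rw [hi0, Pi.single_eq_same, Pi.single_eq_of_ne hij, sub_zero, hai, nsmul_eq_mul,
        ← Nat.cast_mul]
      have h8 : u' * (a * u) = e k * c + a := by
        have : u' * (a * u) = a * (u * u') := by ring
        rw [this, hc, ha]
        ring
      rw [h8, Nat.cast_add, Nat.cast_mul, ZMod.natCast_self, zero_mul, zero_add]
    · by_cases hkj : k = j
      · subst hkj
        rw [hj0, Pi.single_eq_same, Pi.single_eq_of_ne (Ne.symm hij), zero_sub, hbj, nsmul_eq_mul,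
          ← Nat.cast_mul, eq_neg_iff_add_eq_zero, ← Nat.cast_add, ZMod.natCast_eq_zero_iff]
        have h8 : u' * (b * w) + b = b * (u' * w + 1) := by ring
        rw [h8, hb, mul_comm p b]
        exact mul_dvd_mul_left b h6
      · rw [hk0 k ⟨hki, hkj⟩, smul_zero, Pi.single_eq_of_ne hki, Pi.single_eq_of_ne hkj, sub_zero]
  rw [← hfin]
  exact AddSubgroup.nsmul_mem _ hmu u'

end Pool.Agent.K3h57.HY
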