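import Pool.Agent.K3h47.HY.Stm

/-!
# The average is large
-/

set_option autoImplicit false

namespace Pool.Agent.K3h57.HY

open Pool.Agent.K3h47.HY

theorem sum_val_cast (k : ℕ) [NeZero k] (x : ZMod k) :
    2 * ∑ c ∈ Finset.range k, (((x + (c : ZMod k)).val : ℕ) : ℚ) = k * (k - 1) := by
  have h0 : ∑ c ∈ Finset.range k, (((x + (c : ZMod k)).val : ℕ) : ℚ) =
      ∑ y : ZMod k, (y.val : ℚ) := by
    refine Finset.sum_nbij' (fun c => x + (c : ZMod k)) (fun y => (y - x).val) ?_ ?_ ?_ ?_ ?_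
    · intro c _
      exact Finset.mem_univ _
    · intro y _
      exact Finset.mem_range.mpr (ZMod.val_lt _)
    · intro c hc
      rw [add_sub_cancel_left, ZMod.val_natCast_of_lt (Finset.mem_range.mp hc)]
    · intro y _
      rw [ZMod.natCast_zmod_val, add_sub_cancel]
    · intro c _
      rfl
  rw [h0]
  obtain ⟨l, rfl⟩ := Nat.exists_eq_succ_of_ne_zero (NeZero.ne k)
  have h1 : ∑ x : ZMod (l + 1), x.val = ∑ i ∈ Finset.range (l + 1), i :=
    Fin.sum_univ_eq_sum_range (fun i => i) (l + 1)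
  have h2 := Finset.sum_range_id_mul_two (l + 1)
  rw [← h1] at h2
  have h3 : ((∑ x : ZMod (l + 1), x.val : ℕ) : ℚ) * 2 = (l + 1 : ℕ) * (l + 1 - 1 : ℕ) := by
    exact_mod_cast h2
  push_cast at h3 ⊢
  rw [mul_comm, h3]
  simp

variable {n r M : ℕ} {e : Fin r → ℕ} {Λ : AddSubgroup (∀ i, ZMod (e i))}

theorem prescribe (hC : Cmb n r M e Λ) (I : Finset (Fin r)) (hI : I.card ≤ n)
    (x b : ∀ i, ZMod (e i)) : ∃ z, z - x ∈ Λ ∧ ∀ i ∈ I, z i = b i := by
  classical
  have : ∀ k, NeZero (e k) := fun k => ⟨by have := hC.two k; omega⟩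
  choose! ρ hρ using hC.sur I hI
  refine ⟨x + ∑ i ∈ I, (b i - x i).val • ρ i, ?_, ?_⟩
  · rw [add_sub_cancel_left]
    exact Λ.sum_mem fun i hi => Λ.nsmul_mem (hρ i hi).1 _
  · intro i hi
    rw [Pi.add_apply, Finset.sum_apply, Finset.sum_eq_single i]
    · rw [Pi.smul_apply, (hρ i hi).2.1, nsmul_eq_mul, mul_one, ZMod.natCast_zmod_val]
      abel
    · intro i' hi' hne
      rw [Pi.smul_apply, (hρ i' hi').2.2 i hi (Ne.symm hne), smul_zero]
    · exact fun h => absurd hi h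

theorem t_AVC : S_AVC := by
  intro n r M e Λ hC J x hJ hineq
  classical
  have hne : ∀ k, NeZero (e k) := fun k => ⟨by have := hC.two k; omega⟩
  -- an element with maximal entries on `J`
  obtain ⟨z, hz1, hz2⟩ := prescribe hC J (by omega) x fun i => ((e i - 1 : ℕ) : ZMod (e i))
  have hval : ∀ i, (((e i - 1 : ℕ) : ZMod (e i))).val = e i - 1 := fun i => by
    have := hC.two i
    exact ZMod.val_natCast_of_lt (by omega)
  let G : AddSubgroup (∀ i, ZMod (e i)) :=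
    { carrier := {l | l ∈ Λ ∧ ∀ j ∈ J, l j = 0}
      zero_mem' := ⟨Λ.zero_mem, fun j _ => rfl⟩
      add_mem' := fun {a b} ha hb => ⟨Λ.add_mem ha.1 hb.1, fun j hj => by
        rw [Pi.add_apply, ha.2 j hj, hb.2 j hj, add_zero]⟩
      neg_mem' := fun {a} ha => ⟨Λ.neg_mem ha.1, fun j hj => by
        rw [Pi.neg_apply, ha.2 j hj, neg_zero]⟩ }
  have hG : ∀ l, l ∈ G ↔ l ∈ Λ ∧ ∀ j ∈ J, l j = 0 := fun l => Iff.rfl
  have hW : ∀ t, e t * (M / e t) = M := fun t => Nat.mul_div_cancel' (hC.dvd t)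
  have hWq : ∀ t, (e t : ℚ) * ((M / e t : ℕ) : ℚ) = M := fun t => by
    rw [← Nat.cast_mul, hW]
  have hWle : ∀ t, M / e t ≤ M := fun t => Nat.div_le_self _ _
  obtain ⟨g, hg, hge⟩ := exists_ge_avg G (Finset.univ \ J)
    (fun t y => ((y t).val : ℚ) * ((M / e t : ℕ) : ℚ))
    (fun t => ((M : ℚ) - ((M / e t : ℕ) : ℚ)) / 2) (by
      intro t ht
      have htJ := (Finset.mem_sdiff.mp ht).2
      obtain ⟨ρ, hρ, hρ1, hρ0⟩ := hC.sur (insert t J) (by
        rw [Finset.card_insert_of_notMem htJ]; omega) t (Finset.mem_insert_self _ _)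
      refine ⟨ρ, ⟨hρ, fun i hi => hρ0 i (Finset.mem_insert_of_mem hi) (by
        rintro rfl; exact htJ hi)⟩, e t, by have := hC.two t; omega, fun y => ?_⟩
      have h1 : ∀ c ∈ Finset.range (e t), (((y + c • ρ) t).val : ℚ) * ((M / e t : ℕ) : ℚ) =
          (((y t + (c : ZMod (e t))).val : ℕ) : ℚ) * ((M / e t : ℕ) : ℚ) := by
        intro c _
        rw [Pi.add_apply, Pi.smul_apply, hρ1, nsmul_eq_mul, mul_one]
      rw [Finset.sum_congr rfl h1, ← Finset.sum_mul]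
      have h2 := sum_val_cast (e t) (y t)
      have h3 := hWq t
      apply le_of_eq
      linear_combination (-((M / e t : ℕ) : ℚ) / 2) * h2 - (e t : ℚ) / 2 * h3) z
  have hyJ : ∀ i ∈ J, ((z + g) i).val = e i - 1 := by
    intro i hi
    rw [Pi.add_apply, ((hG g).mp hg).2 i hi, add_zero, hz2 i hi, hval]
  refine ⟨z + g, ?_, hyJ, ?_⟩
  · have : z + g - x = (z - x) + g := by abel
    rw [this]
    exact Λ.add_mem hz1 ((hG g).mp hg).1
  · have h1 : (Val M e (z + g) : ℚ) = ∑ i ∈ J, ((M : ℚ) - ((M / e i : ℕ) : ℚ)) +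
        ∑ t ∈ Finset.univ \ J, (((z + g) t).val : ℚ) * ((M / e t : ℕ) : ℚ) := by
      unfold Val
      rw [← Finset.sum_sdiff (Finset.subset_univ J), add_comm]
      push_cast
      congr 1
      refine Finset.sum_congr rfl fun i hi => ?_
      have h2 := hC.two i
      rw [hyJ i hi, Nat.cast_sub (by omega), Nat.cast_one]
      have h3 := hWq i
      linear_combination h3
    have h2 : ((∑ i ∈ J, (M - M / e i) : ℕ) : ℚ) = ∑ i ∈ J, ((M : ℚ) - ((M / e i : ℕ) : ℚ)) := by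
      push_cast [hWle]
      rfl
    have h3 : ((∑ i ∈ Finset.univ \ J, (M - M / e i) : ℕ) : ℚ) =
        ∑ i ∈ Finset.univ \ J, ((M : ℚ) - ((M / e i : ℕ) : ℚ)) := by
      push_cast [hWle]
      rfl
    have h4 : (2 * (n + 1) * M : ℚ) < 2 * ((∑ i ∈ J, (M - M / e i) : ℕ) : ℚ) +
        ((∑ i ∈ Finset.univ \ J, (M - M / e i) : ℕ) : ℚ) + 2 * (n + 2) := by
      exact_mod_cast hineq
    rw [h2, h3] at h4
    rw [← Finset.sum_div] at hge
    have h5 : ((n + 1) * M : ℚ) < Val M e (z + g) + (n + 2) := by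
      rw [h1]
      linarith
    exact_mod_cast h5

end Pool.Agent.K3h57.HY
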